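import Pool.Agent.Y142.ZI.Resc

/-!
Project OI (helper282), job TYPC (helper81): local type full cycle
-/

set_option autoImplicit false

open Matrix Polynomial Filter Topology NumberField IsDedekindDomain
open Pool.Agent.Y142.ZO
open Pool.Agent.Y142.ZI

namespace Pool.Agent.Q81.OI.TYPC

variable {ℓ : ℕ} [hℓ : Fact ℓ.Prime]

theorem two_norm (h2 : ℓ ≠ 2) : ‖(2 : ℚ_[ℓ])‖ = 1 := by
  have h : ‖((2 : ℕ) : ℚ_[ℓ])‖ = 1 := by
    rw [Padic.norm_natCast_eq_one_iff]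
    exact (Nat.coprime_primes hℓ.out Nat.prime_two).2 h2
  exact_mod_cast h

theorem ell_norm (k : ℕ) : ‖((ℓ : ℚ_[ℓ]) ^ k)‖ = ((ℓ : ℝ) ^ k)⁻¹ := by
  rw [norm_pow, Padic.norm_p, inv_pow]

theorem amap_norm (a : ℚ_[ℓ]) : ‖algebraMap ℚ_[ℓ] (AlgebraicClosure ℚ_[ℓ]) a‖ = ‖a‖ :=
  PadicAlgCl.norm_extends ℓ a

theorem fix_pow (F : IntermediateField ℚ_[ℓ] (AlgebraicClosure ℚ_[ℓ]))
    (τ : AlgebraicClosure ℚ_[ℓ] ≃ₐ[F] AlgebraicClosure ℚ_[ℓ]) (a : ℚ_[ℓ]) :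
    τ (algebraMap ℚ_[ℓ] (AlgebraicClosure ℚ_[ℓ]) a) = algebraMap ℚ_[ℓ] (AlgebraicClosure ℚ_[ℓ]) a := by
  rw [IsScalarTower.algebraMap_apply ℚ_[ℓ] F (AlgebraicClosure ℚ_[ℓ])]
  exact τ.commutes _

theorem t (hCLU : S_CLU) (hCYC : S_CYC) (hNICE : S_NICE) : S_TYPC := by
  intro ℓ hℓ h2 n c hn hnn hc
  obtain ⟨ε₁, he1, H1⟩ := hCLU ℓ Unit (fun _ => 0) (fun _ => c) (fun _ => 2 * n) (fun _ => by simp)
    (fun i j hij => absurd (Subsingleton.elim i j) hij) (fun _ => by omega) (fun _ => hc)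
  obtain ⟨ε₂, he2, H2⟩ := hCYC ℓ (2 * n) c (by omega) hnn hc
  have hl0 : (0 : ℝ) < (ℓ : ℝ)⁻¹ := by
    have := hℓ.out.pos
    positivity
  refine ⟨min ε₁ (min ε₂ (ℓ : ℝ)⁻¹), by positivity, ?_⟩
  intro k Q hk hQ hdeg hinv hclose
  set R := resc ℓ k Q with hR
  have hRm : R.Monic := resc_monic k hQ
  have hRd : R.natDegree = 2 * n := by rw [hR, resc_natDegree, hdeg]
  have hprod : ∏ j : Unit, ((X - C ((fun _ : Unit => (0 : ℚ_[ℓ])) j)) ^ ((fun _ : Unit => 2 * n) j) -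
      C ((fun _ : Unit => c) j)) = X ^ (2 * n) - C c := by
    simp
  obtain ⟨hsep, hroot, -, -⟩ := H1 R hRm (by rw [hRd]; simp) (fun j => by
    rw [hprod]
    exact (hclose j).trans_le (min_le_left _ _))
  have hroot1 : ∀ x : AlgebraicClosure ℚ_[ℓ], aeval x Q = 0 → ‖x - 1‖ ≤ ((ℓ : ℝ) ^ k)⁻¹ := by
    intro x hx
    have h := (hroot _ ((aeval_resc k Q x).2 hx)).1
    rw [norm_div, amap_norm, ell_norm] at h
    have hpos : (0 : ℝ) < ((ℓ : ℝ) ^ k)⁻¹ := by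
      have := hℓ.out.pos
      positivity
    rwa [div_le_one hpos] at h
  have hlk : ((ℓ : ℝ) ^ k)⁻¹ ≤ (ℓ : ℝ)⁻¹ := by
    have h1 : (1 : ℝ) ≤ ℓ := by exact_mod_cast hℓ.out.one_le
    have h0 : (0 : ℝ) < ℓ := by positivity
    refine inv_anti₀ h0 ?_
    calc (ℓ : ℝ) = (ℓ : ℝ) ^ 1 := (pow_one _).symm
      _ ≤ (ℓ : ℝ) ^ k := pow_le_pow_right₀ h1 hk
  have hl1 : (ℓ : ℝ)⁻¹ < 1 := by
    refine inv_lt_one_of_one_lt₀ ?_
    exact_mod_cast hℓ.out.one_lt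
  refine ⟨separable_of_resc k hsep, ?_, ?_, ?_, ?_⟩
  · intro h0
    have h1 : R.coeff 0 = 0 := by
      rw [coeff_zero_eq_eval_zero, hR, eval_zero_resc, h0, mul_zero]
    have h3 := (hclose 0).trans_le ((min_le_right _ _).trans (min_le_right _ _))
    have hz : (X ^ (2 * n) : ℚ_[ℓ][X]).coeff 0 = 0 := by
      rw [coeff_X_pow, if_neg (by omega)]
    rw [coeff_sub, coeff_sub, h1, hz, coeff_C_zero, zero_sub, zero_sub, neg_neg, hc] at h3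
    exact lt_irrefl _ h3
  · intro h0
    have h1 : aeval (-1 : AlgebraicClosure ℚ_[ℓ]) Q = 0 := by
      have h3 := congrArg (algebraMap ℚ_[ℓ] (AlgebraicClosure ℚ_[ℓ])) h0
      rw [map_zero, ← aeval_algebraMap_apply_eq_algebraMap_eval, map_neg, map_one] at h3
      exact h3
    have h3 := (hroot1 _ h1).trans hlk
    have h4 : (-1 - 1 : AlgebraicClosure ℚ_[ℓ]) = algebraMap ℚ_[ℓ] (AlgebraicClosure ℚ_[ℓ]) (-2) := by
      rw [map_neg, map_ofNat]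
      norm_num
    rw [h4, amap_norm, norm_neg, two_norm h2] at h3
    linarith
  · have hone : ∀ x : AlgebraicClosure ℚ_[ℓ], aeval x ((X - 1) * Q) = 0 → ‖x - 1‖ ≤ (ℓ : ℝ)⁻¹ := by
      intro x hx
      rw [map_mul, mul_eq_zero, map_sub, aeval_X, map_one] at hx
      rcases hx with hx | hx
      · rw [hx, norm_zero]
        exact hl0.le
      · exact (hroot1 x hx).trans hlk
    intro j x y hj hx hy hxy
    exact hNICE ℓ h2 x y j hj (hone x hx) (hone y hy) hxy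
  · intro F hF hζ
    obtain ⟨τ, hτ⟩ := H2 R hRm hRd (fun j => (hclose j).trans_le ((min_le_right _ _).trans (min_le_left _ _)))
      F hF hζ
    refine ⟨τ, fun x y hx hy => ?_⟩
    obtain ⟨i, hi⟩ := hτ _ _ ((aeval_resc k Q x).2 hx) ((aeval_resc k Q y).2 hy)
    refine ⟨i, ?_⟩
    have h0 : algebraMap ℚ_[ℓ] (AlgebraicClosure ℚ_[ℓ]) ((ℓ : ℚ_[ℓ]) ^ k) ≠ 0 :=
      (_root_.map_ne_zero _).2 (ell_pow_ne k)
    rw [map_div₀, fix_pow, map_sub, map_one, div_left_inj' h0] at hi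
    exact sub_left_injective hi

end Pool.Agent.Q81.OI.TYPC
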